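import Pool.Agent.J4H95.TV.Main

/-!
# There are no `NP^A`-simple subspaces of the tally representation of `V_∞`

For every finite field, every admissible coding and every oracle `A`, each `NP^A` subspace of
infinite codimension of `tal(V_∞)` has only the zero vector in common with some infinite `NP^A`
subspace. So no subspace is `NP^A`-simple. In particular there is no computably enumerable oracle
`D` such that some subspace is both `NP^D`-supermaximal and `NP^D`-simple.
-/

namespace Pool.Agent.Results.MP_65a8de_lc.NoSimpleSubspaces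

open Pool.Agent.H620R2.Gauge Pool.Agent.J4H95.TV

theorem result (F : Type) [Field F] [Fintype F] (φ : F ≃ Fin (Fintype.card F))
    (hφ : (φ 0 : ℕ) = 0) :
    (∀ (A : Oracle) (S : Submodule F (ℕ →₀ F)), IsNPSub A φ S →
      ¬ Module.Finite F ((ℕ →₀ F) ⧸ S) →
      ∃ W : Submodule F (ℕ →₀ F), IsNPSub A φ W ∧ (W : Set (ℕ →₀ F)).Infinite ∧
        ∀ w ∈ W, w ∈ S → w = 0) ∧
    (∀ (A : Oracle) (S : Submodule F (ℕ →₀ F)), ¬ IsSimple A φ S) ∧
    ¬ ∃ D : Oracle, REPred (fun x => D x = true) ∧
      ∃ M : Submodule F (ℕ →₀ F), IsSupermaximal D φ M ∧ IsSimple D φ M :=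
  ⟨fun _ _ h1 h2 => exists_disjoint hφ h2 h1, fun _ S => not_isSimple hφ S,
    fun ⟨_, _, M, _, h⟩ => not_isSimple hφ M h⟩

end Pool.Agent.Results.MP_65a8de_lc.NoSimpleSubspaces
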